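import Pool.Agent.Y670.KC.Stm2
import Pool.Agent.Y592.KC.FIN

/-! Job KC-LOW: a copy with an immune set of isolated points gives infinitely many classes
(helper901). -/

set_option autoImplicit false

namespace Pool.Agent.Y901.KC

open Pool.Agent.Helper941 Pool.Agent.Helper941.IsoProb Pool.Agent.Helper941.Dim
open Pool.Agent.Helper941.Zeta
open Pool.Agent.Y670.KC
open Pool.Agent.Y592.KC (up iso_up comp_addFin addFin_add isIso_symm)

/-- `addInf A` is isomorphic to itself with `k` more isolated points -/
def sig (k : ℕ) : ℕ ≃ ℕ where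
  toFun x := if x % 2 = 0 then x + k else if x < 2 * k then x / 2 else x - k
  invFun y := if y < k then 2 * y + 1 else if (y - k) % 2 = 0 then y - k else y + k
  left_inv x := by
    dsimp only
    split_ifs <;> omega
  right_inv y := by
    dsimp only
    split_ifs <;> omega

theorem sig_even (k : ℕ) {x : ℕ} (h : x % 2 = 0) : sig k x = x + k := if_pos h

theorem sig_odd (k : ℕ) {x : ℕ} (h : ¬ x % 2 = 0) : sig k x < k ∨ (k ≤ sig k x ∧ (sig k x - k) % 2 ≠ 0) := by
  have h1 : sig k x = if x < 2 * k then x / 2 else x - k := if_neg h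
  rw [h1]
  split_ifs <;> omega

theorem iso_sig (k : ℕ) (A : Str) : IsIso (addInf A) (addFin k (addInf A)) (sig k) := by
  intro i x y
  by_cases hx : x % 2 = 0
  · by_cases hy : y % 2 = 0
    · rw [sig_even k hx, sig_even k hy, addFin_add]
    · refine ⟨fun h => absurd h.2.1 hy, fun h => ?_⟩
      obtain ⟨h1, h2, h3⟩ := h
      rcases sig_odd k hy with h4 | h4
      · omega
      · exact absurd h3.2.1 h4.2
  · refine ⟨fun h => absurd h.1 hx, fun h => ?_⟩
    obtain ⟨h1, h2, h3⟩ := h
    rcases sig_odd k hx with h4 | h4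
    · omega
    · exact absurd h3.1 h4.2

theorem isIso_trans {A B C : Str} {f g : ℕ ≃ ℕ} (h : IsIso A B f) (h' : IsIso B C g) :
    IsIso A C (f.trans g) := fun i x y => (h i x y).trans (h' i _ _)

theorem copy_addFin (k : ℕ) {A C : Str} (h : IsCopy (addInf A) C) :
    IsCopy (addInf A) (addFin k C) := by
  obtain ⟨h1, f, hf⟩ := h
  exact ⟨comp_addFin k h1, _, isIso_trans (iso_sig k A) (iso_up k hf)⟩

theorem isol_iso {A B : Str} {f : ℕ ≃ ℕ} (h : IsIso A B f) {x : ℕ} (hx : Isol A x) :
    Isol B (f x) := by
  intro i y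
  have h1 := hx i (f.symm y)
  rw [h, h, f.apply_symm_apply] at h1
  exact h1

theorem isol_lt {m : ℕ} {C : Str} {x : ℕ} (h : x < m) : Isol (addFin m C) x :=
  fun _ _ => ⟨fun h' => absurd h'.1 (not_le.2 h), fun h' => absurd h'.2.1 (not_le.2 h)⟩

theorem isol_add {m : ℕ} {C : Str} {x : ℕ} : Isol (addFin m C) (x + m) ↔ Isol C x := by
  constructor
  · intro h i y
    have h1 := h i (y + m)
    rw [addFin_add, addFin_add] at h1
    exact h1
  · intro h i y
    refine ⟨fun h' => ?_, fun h' => ?_⟩
    · have h2 := h'.2.2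
      rw [Nat.add_sub_cancel] at h2
      exact (h i _).1 h2
    · have h2 := h'.2.2
      rw [Nat.add_sub_cancel] at h2
      exact (h i _).2 h2

/-- the orbit of `a` under `q` -/
def orb (q : ℕ → ℕ) (a : ℕ) (n : ℕ) : ℕ := Nat.rec a (fun _ y => q y) n

theorem orb_succ (q : ℕ → ℕ) (a n : ℕ) : orb q a (n + 1) = q (orb q a n) := rfl

theorem orb_comp {q : ℕ → ℕ} (hq : Computable q) (a : ℕ) : Computable (orb q a) := by
  have h := Computable.nat_rec (f := fun n : ℕ => n) (g := fun _ : ℕ => a)
    (h := fun (_ : ℕ) (p : ℕ × ℕ) => q p.2) Computable.id (Computable.const a)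
    (hq.comp (Computable.snd.comp Computable.snd))
  exact h

theorem orb_inj {q : ℕ → ℕ} (hq : Function.Injective q) {a : ℕ} (ha : ∀ x, q x ≠ a) :
    Function.Injective (orb q a) := by
  have key : ∀ m d, orb q a m ≠ orb q a (m + (d + 1)) := by
    intro m d
    induction m with
    | zero =>
      intro h
      rw [Nat.zero_add, orb_succ] at h
      exact ha _ h.symm
    | succ m ih =>
      intro h
      rw [show m + 1 + (d + 1) = m + (d + 1) + 1 by omega, orb_succ, orb_succ] at h
      exact ih (hq h)
  intro m n h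
  rcases lt_trichotomy m n with h1 | h1 | h1
  · obtain ⟨d, rfl⟩ : ∃ d, n = m + (d + 1) := ⟨n - m - 1, by omega⟩
    exact absurd h (key m d)
  · exact h1
  · obtain ⟨d, rfl⟩ : ∃ d, m = n + (d + 1) := ⟨m - n - 1, by omega⟩
    exact absurd h.symm (key n d)

theorem not_compIso {C : Str} (hC : ImmIso C) {j k : ℕ} (hjk : j < k) :
    ¬ CompIso (addFin j C) (addFin k C) := by
  rintro ⟨f, hf, hcf⟩
  set q : ℕ → ℕ := fun x => f.symm (x + (k - j)) with hq
  have hqc : Computable q := (computable_symm hcf).comp (c_add c_id (c_const (k - j)))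
  have hqi : Function.Injective q := fun x y h => by
    have := f.symm.injective h
    omega
  have hqs : ∀ x, Isol (addFin j C) x → Isol (addFin j C) (q x) := by
    intro x hx
    refine isol_iso (isIso_symm hf) ?_
    by_cases h : x < j
    · exact isol_lt (by omega)
    · obtain ⟨y, rfl⟩ : ∃ y, x = y + j := ⟨x - j, by omega⟩
      rw [isol_add] at hx
      rw [show y + j + (k - j) = y + k by omega, isol_add]
      exact hx
  set a := f.symm 0 with ha
  have haI : Isol (addFin j C) a := isol_iso (isIso_symm hf) (isol_lt (by omega))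
  have hne : ∀ x, q x ≠ a := fun x h => by
    have := f.symm.injective h
    omega
  have hoi : Function.Injective (orb q a) := orb_inj hqi hne
  have hoI : ∀ n, Isol (addFin j C) (orb q a n) := by
    intro n
    induction n with
    | zero => exact haI
    | succ n ih => exact hqs _ ih
  obtain ⟨N, hN⟩ : ∃ N, ∀ n, N ≤ n → j ≤ orb q a n := by
    have hfin : ((orb q a) ⁻¹' Set.Iio j).Finite := (Set.finite_Iio j).preimage hoi.injOn
    obtain ⟨N, hN⟩ := hfin.bddAbove
    refine ⟨N + 1, fun n hn => ?_⟩
    by_contra hc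
    have := hN (show n ∈ (orb q a) ⁻¹' Set.Iio j from not_le.1 hc)
    omega
  obtain ⟨n, hn⟩ := hC (fun n => orb q a (N + n) - j)
    (c_sub ((orb_comp hqc a).comp (c_add (c_const N) c_id)) (c_const j)) (fun m n h => by
      have h1 := hN (N + m) (by omega)
      have h2 := hN (N + n) (by omega)
      have h3 : orb q a (N + m) = orb q a (N + n) := by
        simp only at h
        omega
      have := hoi h3
      omega)
  refine hn ?_
  have h1 := hN (N + n) (by omega)
  have h2 := hoI (N + n)
  rw [show orb q a (N + n) = orb q a (N + n) - j + j by omega, isol_add] at h2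
  exact h2

theorem t_LOW : Pool.Agent.Y670.KC.Stm_LOW := by
  intro A C _ _ hcopy hC
  unfold compDim
  have hinj : Function.Injective (fun k : ℕ =>
      (Quotient.mk (copySetoid (addInf A)) ⟨addFin k C, copy_addFin k hcopy⟩ :
        Quotient (copySetoid (addInf A)))) := by
    intro j k h
    have h1 : CompIso (addFin j C) (addFin k C) := Quotient.exact h
    rcases lt_trichotomy j k with h2 | h2 | h2
    · exact absurd h1 (not_compIso hC h2)
    · exact h2
    · exact absurd h1.symm (not_compIso hC h2)
  have : Infinite (Quotient (copySetoid (addInf A))) := Infinite.of_injective _ hinj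
  exact Cardinal.aleph0_le_mk _

end Pool.Agent.Y901.KC
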